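import Pool.Agent.helper64.PB.SpecA

/-!
# pb:ALA (MP_069684_lc): the conjunction of all variables by `n - 1` conjunctions
-/

set_option autoImplicit false

namespace Pool.Agent.PB

/-- the conjunction of the variables `0, ..., k` -/
def ALA_f (n k : ℕ) : BF n := fun x => decide (∀ i : Fin n, (i : ℕ) ≤ k → x i = true)

theorem ALA_zero (n : ℕ) (hn : 0 < n) : ALA_f n 0 = fun x => x ⟨0, hn⟩ := by
  funext x
  unfold ALA_f
  by_cases h : x ⟨0, hn⟩ = true
  · rw [h, decide_eq_true_iff]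
    intro i hi
    have : i = ⟨0, hn⟩ := Fin.ext (Nat.le_zero.1 hi)
    rw [this, h]
  · rw [Bool.not_eq_true] at h
    rw [h, decide_eq_false_iff_not]
    intro h'
    have := h' ⟨0, hn⟩ le_rfl
    rw [h] at this
    exact Bool.false_ne_true this

theorem ALA_succ (n k : ℕ) (hk : k + 1 < n) :
    (fun x : Fin n → Bool => fAnd fun i => (![ALA_f n k, fun x => x ⟨k + 1, hk⟩] : Fin 2 → BF n) i x) =
      ALA_f n (k + 1) := by
  funext x
  show (ALA_f n k x && x ⟨k + 1, hk⟩) = ALA_f n (k + 1) x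
  rw [Bool.eq_iff_iff, Bool.and_eq_true]
  unfold ALA_f
  rw [decide_eq_true_iff, decide_eq_true_iff]
  constructor
  · rintro ⟨h1, h2⟩ i hi
    rcases Nat.lt_or_ge (i : ℕ) (k + 1) with h | h
    · exact h1 i (Nat.lt_succ_iff.1 h)
    · have : i = ⟨k + 1, hk⟩ := Fin.ext (le_antisymm hi h)
      rw [this]
      exact h2
  · intro h
    exact ⟨fun i hi => h i (hi.trans (Nat.le_succ k)), h ⟨k + 1, hk⟩ le_rfl⟩

theorem ALA_last (n : ℕ) (hn : 1 ≤ n) : ALA_f n (n - 1) = allAnd n := by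
  funext x
  unfold ALA_f allAnd
  rw [Bool.eq_iff_iff, decide_eq_true_iff, decide_eq_true_iff]
  constructor
  · intro h i
    exact h i (by have := i.2; omega)
  · intro h i _
    exact h i

theorem ALA (hSUB : SUB_stmt) : ALA_stmt := by
  intro G hG
  obtain ⟨c, hc⟩ := hG
  refine ⟨c, fun n hn => ?_⟩
  have key : ∀ k, k < n → ∃ l, Prog G n l ∧ l.length ≤ c * k ∧ Av l (ALA_f n k) := by
    intro k
    induction k with
    | zero =>
      intro h0
      refine ⟨[], Prog.nil, by simp, Or.inr ⟨⟨0, h0⟩, ?_⟩⟩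
      exact ALA_zero n h0
    | succ k ih =>
      intro hk
      obtain ⟨l, hl, hlen, hav⟩ := ih (by omega)
      obtain ⟨l', hp, hlen', hav'⟩ := hSUB G 2 n fAnd c l
        (![ALA_f n k, fun x => x ⟨k + 1, hk⟩]) hc hl (by
          intro i
          fin_cases i
          · exact hav
          · exact Or.inr ⟨⟨k + 1, hk⟩, rfl⟩)
      rw [ALA_succ n k hk] at hav'
      refine ⟨l' ++ l, hp, ?_, hav'⟩
      rw [List.length_append, Nat.mul_succ]
      omega
  obtain ⟨l, hl, hlen, hav⟩ := key (n - 1) (by omega)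
  rw [ALA_last n hn] at hav
  exact ⟨l, hl, hlen.trans (Nat.mul_le_mul_left c (Nat.sub_le n 1)), hav⟩

end Pool.Agent.PB
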