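import Pool.Agent.helper64.PB.SpecF

/-!
# pb:MCT (MP_069684_lc): a closed family has few minimal elements of each cardinality
-/

set_option autoImplicit false

namespace Pool.Agent.PB

open Finset Polynomial

theorem MCT_PF {K : Type} {B Y : Finset (K × K)} (h : PF B) (hY : Y ⊆ B) : PF Y :=
  fun z hz z' hz' e => h z (hY hz) z' (hY hz') e

theorem MCT (hSPF : SPF_stmt) (hGRP : GRP_stmt) : MCT_stmt := by
  intro K _ _ _ p L G t ε 𝓐 hL ht hcl j
  by_contra hcon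
  rw [not_le] at hcon
  set 𝓕 := 𝓐.filter fun B => B.card = j ∧ ∀ B' ∈ 𝓐, B' ⊆ B → B' = B with h𝓕
  have hF : ∀ B ∈ 𝓕, B ∈ 𝓐 ∧ B.card = j ∧ ∀ B' ∈ 𝓐, B' ⊆ B → B' = B := by
    intro B hB
    rw [h𝓕, mem_filter] at hB
    exact hB
  obtain ⟨Y, hYj, hYk, hYZ⟩ := hSPF (K × K) 𝓕 j (4 * t * L) (fun B hB => (hF B hB).2.1) hcon
  set 𝓗 := 𝓕.filter fun B => Y ⊆ B with h𝓗
  have hH : ∀ B ∈ 𝓗, B ∈ 𝓕 ∧ Y ⊆ B := by
    intro B hB
    rw [h𝓗, mem_filter] at hB
    exact hB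
  set 𝓖 := 𝓗.image fun B => B \ Y with h𝓖
  have hinj : Set.InjOn (fun B : Finset (K × K) => B \ Y) (𝓗 : Set (Finset (K × K))) := by
    intro B hB B' hB' e
    have h1 := (hH B (mem_coe.1 hB)).2
    have h2 := (hH B' (mem_coe.1 hB')).2
    rw [← sdiff_union_of_subset h1, ← sdiff_union_of_subset h2]
    show B \ Y ∪ Y = B' \ Y ∪ Y
    rw [show B \ Y = B' \ Y from e]
  have hcard : 𝓖.card = 𝓗.card := card_image_of_injOn hinj
  have hne : 𝓗.Nonempty := by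
    rw [← card_pos]
    exact lt_of_le_of_lt (Nat.zero_le _) hYk
  obtain ⟨B₀, hB₀⟩ := hne
  have hB₀F := hF B₀ (hH B₀ hB₀).1
  have hj : j ≤ 2 * t := by
    rw [← hB₀F.2.1]
    exact (hcl.1 B₀ hB₀F.1).2
  have hGne : 𝓖.Nonempty := ⟨B₀ \ Y, mem_image_of_mem _ hB₀⟩
  have hcd : ∀ B ∈ 𝓗, (B \ Y).card = j - Y.card := by
    intro B hB
    rw [card_sdiff_of_subset (hH B hB).2, (hF B (hH B hB).1).2.1]
  have hGB : ∀ B ∈ 𝓖, PF B ∧ B.card = j - Y.card := by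
    intro B hB
    obtain ⟨B', hB', rfl⟩ := mem_image.1 hB
    exact ⟨MCT_PF (hcl.1 B' (hF B' (hH B' hB').1).1).1 sdiff_subset, hcd B' hB'⟩
  have hGZ : ∀ Z : Finset (K × K), (𝓖.filter fun B => Z ⊆ B).card * (4 * t * L) ^ Z.card ≤ 𝓖.card := by
    intro Z
    rcases Finset.eq_empty_or_nonempty (𝓖.filter fun B => Z ⊆ B) with he | ⟨B₁, hB₁⟩
    · rw [he, card_empty, Nat.zero_mul]
      exact Nat.zero_le _
    rw [mem_filter] at hB₁
    obtain ⟨hB₁G, hZ₁⟩ := hB₁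
    obtain ⟨B₂, hB₂, rfl⟩ := mem_image.1 hB₁G
    have hdisj : Disjoint Z Y := by
      rw [Finset.disjoint_left]
      intro z hz hzY
      exact (mem_sdiff.1 (hZ₁ hz)).2 hzY
    have hZi : Z.card ≤ j - Y.card := by
      rw [← hcd B₂ hB₂]
      exact card_le_card hZ₁
    rcases Finset.eq_empty_or_nonempty Z with hZe | ⟨z₀, hz₀⟩
    · rw [hZe, card_empty, pow_zero, Nat.mul_one]
      exact card_filter_le _ _
    have hss : Y ⊂ Y ∪ Z := by
      rw [Finset.ssubset_iff_of_subset subset_union_left]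
      exact ⟨z₀, mem_union_right _ hz₀, fun h => Finset.disjoint_left.1 hdisj hz₀ h⟩
    have hcu : (Y ∪ Z).card = Y.card + Z.card := card_union_of_disjoint hdisj.symm
    have h1 := hYZ (Y ∪ Z) hss (by rw [hcu]; omega)
    have h2 : (𝓖.filter fun B => Z ⊆ B).card ≤ (𝓕.filter fun B => Y ∪ Z ⊆ B).card := by
      have h3 : (𝓖.filter fun B => Z ⊆ B) ⊆ (𝓕.filter fun B => Y ∪ Z ⊆ B).image fun B => B \ Y := by
        intro B hB
        rw [mem_filter] at hB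
        obtain ⟨B', hB', rfl⟩ := mem_image.1 hB.1
        refine mem_image.2 ⟨B', ?_, rfl⟩
        rw [mem_filter]
        refine ⟨(hH B' hB').1, union_subset (hH B' hB').2 (hB.2.trans sdiff_subset)⟩
      exact (card_le_card h3).trans card_image_le
    calc (𝓖.filter fun B => Z ⊆ B).card * (4 * t * L) ^ Z.card
        ≤ (4 * t * L) ^ (j - (Y ∪ Z).card) * (4 * t * L) ^ Z.card :=
          Nat.mul_le_mul_right _ (h2.trans h1)
      _ = (4 * t * L) ^ (j - Y.card) := by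
          rw [← pow_add, hcu]
          congr 1
          omega
      _ ≤ 𝓖.card := by
          rw [hcard]
          exact hYk.le
  have hgrp := hGRP K p L G t (j - Y.card) ε 𝓖 hL ht (by omega) hGne hGB hGZ
  have hYA : Y ∈ 𝓐 := by
    refine hcl.2 Y (MCT_PF (hcl.1 B₀ hB₀F.1).1 (hH B₀ hB₀).2) (by omega) ?_
    refine (Nat.mul_le_mul_right _ (card_le_card ?_)).trans hgrp
    intro ω hω
    rw [mem_filter] at hω ⊢
    refine ⟨hω.1, fun hB => hω.2 ?_⟩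
    obtain ⟨B, hB, hBz⟩ := hB
    obtain ⟨B', hB', rfl⟩ := mem_image.1 hB
    refine ⟨B', (hF B' (hH B' hB').1).1, fun z hz => ?_⟩
    by_cases hzY : z ∈ Y
    · exact Or.inl hzY
    · exact Or.inr (hBz z (mem_sdiff.2 ⟨hz, hzY⟩))
  have heq := hB₀F.2.2 Y hYA (hH B₀ hB₀).2
  rw [heq, hB₀F.2.1] at hYj
  exact lt_irrefl _ hYj

end Pool.Agent.PB
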