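import Pool.Agent.helper64.PB.SpecB

/-!
# pb:SDM (MP_069684_lc): self-dual bases with a non-affine and a non-monotone gate contain `maj(x, y, not z)`
-/

set_option autoImplicit false

namespace Pool.Agent.PB

/-- a gate of the basis is in the clone -/
theorem SDM_gate {G : Set Gate} {g : Gate} (hg : g ∈ G) : InCl G g.2 := by
  refine ⟨1, [(fun x => g.2 fun i => x i)], ?_, le_rfl, Or.inl ?_⟩
  · exact Prog.step [] g (fun i => fun x => x i) Prog.nil hg (fun i => Or.inr ⟨i, rfl⟩)
  · exact List.mem_singleton.2 rfl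

/-- a minor of a gate of the basis is in the clone -/
theorem SDM_minor (hCLP : CLP_stmt) {G : Set Gate} {g : Gate} (hg : g ∈ G) {m : ℕ}
    (σ : Fin g.1 → Fin m) : InCl G (fun y : Fin m → Bool => g.2 fun i => y (σ i)) :=
  hCLP.2 G g.1 m g.2 (fun i => fun y => y (σ i)) (SDM_gate hg) (fun i => hCLP.1 G m (σ i))

/-- the table of two variables -/
def SDM_tab (a b c d y z : Bool) : Bool := bif y then (bif z then d else c) else (bif z then b else a)

/-- the self-dual function of three variables with the given values at `0 y z` -/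
def SDM_Q (a b c d : Bool) : BF 3 := fun x =>
  bif x 0 then !(SDM_tab a b c d (!(x 1)) (!(x 2))) else SDM_tab a b c d (x 1) (x 2)

/-- majority with negations -/
def SDM_F (s0 s1 s2 : Bool) : BF 3 := fun x => fMaj ![xor s0 (x 0), xor s1 (x 1), xor s2 (x 2)]

theorem SDM_vec (x : Fin 3 → Bool) : x = ![x 0, x 1, x 2] := by
  funext i
  fin_cases i <;> rfl

theorem SDM_eqQ (F : BF 3) (h : SelfDual F) :
    F = SDM_Q (F ![false, false, false]) (F ![false, false, true]) (F ![false, true, false])
      (F ![false, true, true]) := by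
  have h' : ∀ p q r : Bool, F ![!p, !q, !r] = !(F ![p, q, r]) := by
    intro p q r
    rw [← h ![p, q, r]]
    congr 1
    funext i
    fin_cases i <;> rfl
  funext x
  rw [SDM_vec x]
  have h1 := h' false false false
  have h2 := h' false false true
  have h3 := h' false true false
  have h4 := h' false true true
  simp only [Bool.not_false, Bool.not_true] at h1 h2 h3 h4
  rcases x 0 <;> rcases x 1 <;> rcases x 2 <;> simp [SDM_Q, SDM_tab, h1, h2, h3, h4]

theorem SDM_affine (a b c d : Bool) (h : xor a (xor b (xor c d)) = false) : Affine (SDM_Q a b c d) := by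
  have key : ∀ a b c d : Bool, xor a (xor b (xor c d)) = false → ∀ x : Fin 3 → Bool,
      SDM_Q a b c d x = xor (xor a (x 1 && (xor a c))) (xor (x 2 && (xor a b)) (x 0 && !(xor b c))) := by
    intro a b c d h x
    unfold SDM_Q SDM_tab
    rcases a <;> rcases b <;> rcases c <;> rcases d <;> rcases x 0 <;> rcases x 1 <;> rcases x 2 <;>
      first
      | rfl
      | (exfalso; revert h; decide)
  intro x y z
  rw [key a b c d h, key a b c d h, key a b c d h, key a b c d h]
  rcases x 0 <;> rcases x 1 <;> rcases x 2 <;> rcases y 0 <;> rcases y 1 <;> rcases y 2 <;>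
    rcases z 0 <;> rcases z 1 <;> rcases z 2 <;> rcases a <;> rcases xor b c <;> rcases b <;> rcases c <;> rfl

theorem SDM_maj (a b c d : Bool) (h : xor a (xor b (xor c d)) = true) :
    ∃ s0 s1 s2 : Bool, SDM_Q a b c d = SDM_F s0 s1 s2 := by
  have key : ∀ a b c d : Bool, xor a (xor b (xor c d)) = true →
      ∃ s0 s1 s2 : Bool, ∀ x0 x1 x2 : Bool, SDM_Q a b c d ![x0, x1, x2] = SDM_F s0 s1 s2 ![x0, x1, x2] := by
    decide
  obtain ⟨s0, s1, s2, hs⟩ := key a b c d h
  refine ⟨s0, s1, s2, ?_⟩
  funext x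
  rw [SDM_vec x]
  exact hs _ _ _

theorem SDM_neg (hCLP : CLP_stmt) {G : Set Gate} (hn : InCl G fNot) (j : Fin 3) :
    InCl G (fun x : Fin 3 → Bool => !(x j)) :=
  hCLP.2 G 1 3 fNot (fun _ => fun x => x j) hn (fun _ => hCLP.1 G 3 j)

/-- `fD` from a majority with negations, by the arguments `φ` -/
theorem SDM_of (hCLP : CLP_stmt) {G : Set Gate} {s0 s1 s2 : Bool} (hF : InCl G (SDM_F s0 s1 s2))
    (φ : Fin 3 → BF 3) (hφ : ∀ i, InCl G (φ i))
    (h : (fun x => SDM_F s0 s1 s2 fun i => φ i x) = fD) : InCl G fD := by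
  rw [← h]
  exact hCLP.2 G 3 3 _ φ hF hφ

theorem SDM_not (hCLP : CLP_stmt) {G : Set Gate} {s0 s1 s2 : Bool} (hF : InCl G (SDM_F s0 s1 s2))
    (h : ∀ b : Bool, SDM_F s0 s1 s2 ![b, b, b] = !b) : InCl G fNot := by
  have h1 := hCLP.2 G 3 1 _ (fun _ => fun x => x 0) hF (fun _ => hCLP.1 G 1 0)
  have h2 : (fun x : Fin 1 → Bool => SDM_F s0 s1 s2 fun i => x 0) = fNot := by
    funext x
    have h3 : (fun _ : Fin 3 => x 0) = ![x 0, x 0, x 0] := by
      funext i
      fin_cases i <;> rfl
    rw [h3, h]
    rfl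
  rw [← h2]
  exact h1

theorem SDM (hNMM : NMM_stmt) (hNLM : NLM_stmt) (hCLP : CLP_stmt) (hPRP : PRP_stmt) : SDM_stmt := by
  intro G hSD hNA hNM
  obtain ⟨f, hf, hfa⟩ := hNA
  obtain ⟨e, he, hem⟩ := hNM
  obtain ⟨σ, hσ⟩ := hNLM f.1 f.2 hfa
  obtain ⟨τ, hτ1, hτ0⟩ := hNMM e.1 e.2 hem
  -- the non-affine function of three variables
  have hF0 := SDM_minor hCLP hf σ
  have hFsd : SelfDual (fun y : Fin 3 → Bool => f.2 fun i => y (σ i)) :=
    (hPRP G 3 _ hF0).2.2.2.2.1 hSD
  obtain ⟨s0, s1, s2, hs⟩ : ∃ s0 s1 s2 : Bool,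
      (fun y : Fin 3 → Bool => f.2 fun i => y (σ i)) = SDM_F s0 s1 s2 := by
    have h1 := SDM_eqQ _ hFsd
    rw [h1]
    apply SDM_maj
    rw [← Bool.not_eq_false]
    intro h2
    exact hσ (h1 ▸ SDM_affine _ _ _ _ h2)
  rw [hs] at hF0
  -- the minor of the non-monotone gate
  have hg := SDM_minor hCLP he τ
  have hgsd : SelfDual (fun y : Fin 3 → Bool => e.2 fun i => y (τ i)) :=
    (hPRP G 3 _ hg).2.2.2.2.1 hSD
  set g : BF 3 := fun y : Fin 3 → Bool => e.2 fun i => y (τ i) with hgdef
  have g1 : g ![true, false, false] = true := hτ1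
  have g2 : g ![true, false, true] = false := hτ0
  have g3 : g ![false, true, true] = false := by
    have h := hgsd ![true, false, false]
    have e3 : (fun i => !((![true, false, false] : Fin 3 → Bool) i)) = ![false, true, true] := by
      funext i
      fin_cases i <;> rfl
    rw [g1, e3] at h
    exact h
  have g4 : g ![false, true, false] = true := by
    have h := hgsd ![true, false, true]
    have e4 : (fun i => !((![true, false, true] : Fin 3 → Bool) i)) = ![false, true, false] := by
      funext i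
      fin_cases i <;> rfl
    rw [g2, e4] at h
    exact h
  have v0 := hCLP.1 G 3 0
  have v1 := hCLP.1 G 3 1
  have v2 := hCLP.1 G 3 2
  rcases s0 with _ | _ <;> rcases s1 with _ | _ <;> rcases s2 with _ | _
  · -- no negation
    refine SDM_of hCLP hF0 ![fun x => x 0, fun x => x 1, g] ?_ ?_
    · intro i
      fin_cases i
      · exact v0
      · exact v1
      · exact hg
    · funext x
      rw [SDM_vec x]
      show ((xor false (x 0) && xor false (x 1)) || (xor false (x 0) && xor false (g ![x 0, x 1, x 2])) ||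
        (xor false (x 1) && xor false (g ![x 0, x 1, x 2]))) =
        ((x 0 && x 1) || (x 0 && !(x 2)) || (x 1 && !(x 2)))
      rcases x 0 <;> rcases x 1 <;> rcases x 2 <;> simp [g1, g2, g3, g4]
  · refine SDM_of hCLP hF0 ![fun x => x 0, fun x => x 1, fun x => x 2] ?_ ?_
    · intro i
      fin_cases i
      · exact v0
      · exact v1
      · exact v2
    · funext x
      rw [SDM_vec x]
      rcases x 0 <;> rcases x 1 <;> rcases x 2 <;> rfl
  · refine SDM_of hCLP hF0 ![fun x => x 0, fun x => x 2, fun x => x 1] ?_ ?_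
    · intro i
      fin_cases i
      · exact v0
      · exact v2
      · exact v1
    · funext x
      rw [SDM_vec x]
      rcases x 0 <;> rcases x 1 <;> rcases x 2 <;> rfl
  · have hn := SDM_not hCLP hF0 (by decide)
    refine SDM_of hCLP hF0 ![fun x => x 0, fun x => !(x 1), fun x => x 2] ?_ ?_
    · intro i
      fin_cases i
      · exact v0
      · exact SDM_neg hCLP hn 1
      · exact v2
    · funext x
      rw [SDM_vec x]
      rcases x 0 <;> rcases x 1 <;> rcases x 2 <;> rfl
  · refine SDM_of hCLP hF0 ![fun x => x 2, fun x => x 0, fun x => x 1] ?_ ?_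
    · intro i
      fin_cases i
      · exact v2
      · exact v0
      · exact v1
    · funext x
      rw [SDM_vec x]
      rcases x 0 <;> rcases x 1 <;> rcases x 2 <;> rfl
  · have hn := SDM_not hCLP hF0 (by decide)
    refine SDM_of hCLP hF0 ![fun x => !(x 0), fun x => x 1, fun x => x 2] ?_ ?_
    · intro i
      fin_cases i
      · exact SDM_neg hCLP hn 0
      · exact v1
      · exact v2
    · funext x
      rw [SDM_vec x]
      rcases x 0 <;> rcases x 1 <;> rcases x 2 <;> rfl
  · have hn := SDM_not hCLP hF0 (by decide)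
    refine SDM_of hCLP hF0 ![fun x => !(x 0), fun x => !(x 1), fun x => !(x 2)] ?_ ?_
    · intro i
      fin_cases i
      · exact SDM_neg hCLP hn 0
      · exact SDM_neg hCLP hn 1
      · exact SDM_neg hCLP hn 2
    · funext x
      rw [SDM_vec x]
      rcases x 0 <;> rcases x 1 <;> rcases x 2 <;> rfl
  · have hn := SDM_not hCLP hF0 (by decide)
    refine SDM_of hCLP hF0 ![fun x => !(x 0), fun x => !(x 1), fun x => x 2] ?_ ?_
    · intro i
      fin_cases i
      · exact SDM_neg hCLP hn 0
      · exact SDM_neg hCLP hn 1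
      · exact v2
    · funext x
      rw [SDM_vec x]
      rcases x 0 <;> rcases x 1 <;> rcases x 2 <;> rfl

end Pool.Agent.PB
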